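import Mathlib
import Pool.Agent.Hhelper87.Cover.Finite

/-!
# Ray/Core: the Cauchy-Schwarz inequality for one choice, with the pairs of incidences kept
-/

set_option autoImplicit false

namespace Pool.Agent.Hhelper69.Ray

open Finset

/-- the number of the pairs of incidences -/
def pairs (N : ℕ) (P : Finset ℕ) (a : ℕ → ℤ) : ℕ :=
  ∑ p ∈ P, ∑ q ∈ P.erase p, ∑ n ∈ Icc 1 N,
    if ((p : ℤ) ∣ (n : ℤ) - a p ∧ (q : ℤ) ∣ (n : ℤ) - a q) then 1 else 0

theorem core (N : ℕ) (x M : ℝ) (P : Finset ℕ) (a : ℕ → ℤ)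
    (hP : ∀ p ∈ P, p.Prime ∧ x ≤ (p : ℝ) ∧ (p : ℝ) < 2 * x) (hx : 2 ≤ x) (h2x : 2 * x ≤ N)
    (hM : (((Icc 1 N).filter fun n : ℕ => ∃ p ∈ P, (p : ℤ) ∣ (n : ℤ) - a p).card : ℝ) ≤ M) :
    ((P.card : ℝ) * N / (4 * x)) ^ 2 ≤ M * (2 * P.card * N / x + (pairs N P a : ℝ)) := by
  classical
  have hx0 : 0 < x := by linarith
  obtain ⟨I, hI⟩ : ∃ I : ℕ → ℕ → Prop, ∀ n p, I n p ↔ (p : ℤ) ∣ (n : ℤ) - a p :=
    ⟨_, fun _ _ => Iff.rfl⟩
  obtain ⟨t, ht⟩ : ∃ t : ℕ → ℕ, ∀ n, t n = (P.filter fun p => I n p).card :=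
    ⟨_, fun _ => rfl⟩
  have hpN : ∀ p ∈ P, p ≤ N := by
    intro p hp
    have : (p : ℝ) ≤ N := (hP p hp).2.2.le.trans h2x
    exact_mod_cast this
  have hT : ∑ n ∈ Icc 1 N, t n = ∑ p ∈ P, ((Icc 1 N).filter fun n => I n p).card := by
    simp only [ht]
    exact (Finset.sum_card_bipartiteAbove_eq_sum_card_bipartiteBelow I)
  have hfil : ∀ p, ((Icc 1 N).filter fun n => I n p) =
      ((Icc 1 N).filter fun n : ℕ => (p : ℤ) ∣ (n : ℤ) - a p) := by
    intro p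
    exact Finset.filter_congr fun n _ => hI n p
  have hlow : (P.card : ℝ) * N / (4 * x) ≤ ((∑ n ∈ Icc 1 N, t n : ℕ) : ℝ) := by
    rw [hT]
    push_cast
    have h2 : ∀ p ∈ P, (N : ℝ) / (4 * x) ≤ (((Icc 1 N).filter fun n => I n p).card : ℝ) := by
      intro p hp
      have hp0 : 0 < p := (hP p hp).1.pos
      have h3 : N / p ≤ ((Icc 1 N).filter fun n => I n p).card := by
        rw [hfil]
        exact Pool.Agent.Hhelper87.Cover.ap_card_ge N p hp0 (a p)
      have h4 : (N : ℝ) / (4 * x) ≤ ((N / p : ℕ) : ℝ) := by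
        have h5 : 1 ≤ N / p := (Nat.one_le_div_iff hp0).2 (hpN p hp)
        have h6 : N < p * (N / p + 1) := Nat.lt_mul_div_succ N hp0
        have h7 : N ≤ 2 * p * (N / p) := by nlinarith
        have h8 : (N : ℝ) ≤ 2 * p * ((N / p : ℕ) : ℝ) := by exact_mod_cast h7
        rw [div_le_iff₀ (by positivity)]
        have h9 : (p : ℝ) ≤ 2 * x := (hP p hp).2.2.le
        have h10 : (0 : ℝ) ≤ ((N / p : ℕ) : ℝ) := by positivity
        nlinarith
      exact h4.trans (by exact_mod_cast h3)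
    calc (P.card : ℝ) * N / (4 * x) = ∑ p ∈ P, ((N : ℝ) / (4 * x)) := by
          rw [Finset.sum_const, nsmul_eq_mul]
          ring
      _ ≤ _ := Finset.sum_le_sum h2
  have hup : ((∑ n ∈ Icc 1 N, t n : ℕ) : ℝ) ≤ 2 * P.card * N / x := by
    rw [hT]
    push_cast
    have h2 : ∀ p ∈ P, (((Icc 1 N).filter fun n => I n p).card : ℝ) ≤ 2 * (N / x) := by
      intro p hp
      have h3 : ((Icc 1 N).filter fun n => I n p).card ≤ N / p + 1 := by
        rw [hfil]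
        exact Pool.Agent.Hhelper87.Cover.ap_card_le N p (a p)
      have h13 : ((N / p : ℕ) : ℝ) ≤ (N : ℝ) / p := Nat.cast_div_le
      have h14 : (N : ℝ) / p ≤ N / x :=
        div_le_div_of_nonneg_left (by positivity) hx0 (hP p hp).2.1
      have h15 : 1 ≤ (N : ℝ) / x := by
        rw [le_div_iff₀ hx0]
        linarith
      have h16 : (((Icc 1 N).filter fun n => I n p).card : ℝ) ≤ ((N / p : ℕ) : ℝ) + 1 := by
        exact_mod_cast h3
      linarith
    refine (Finset.sum_le_sum h2).trans (le_of_eq ?_)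
    rw [Finset.sum_const, nsmul_eq_mul]
    ring
  have hsq : ∑ n ∈ Icc 1 N, t n ^ 2 = ∑ n ∈ Icc 1 N, t n + pairs N P a := by
    have h1 : ∀ n ∈ Icc 1 N, t n ^ 2 =
        ∑ p ∈ P, ∑ q ∈ P, if (I n p ∧ I n q) then 1 else 0 := by
      intro n _
      rw [ht, sq, Finset.card_filter, Finset.sum_mul_sum]
      refine Finset.sum_congr rfl fun p _ => Finset.sum_congr rfl fun q _ => ?_
      by_cases hp : I n p <;> by_cases hq : I n q <;> simp [hp, hq]
    rw [Finset.sum_congr rfl h1, Finset.sum_comm, hT]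
    unfold pairs
    rw [← Finset.sum_add_distrib]
    refine Finset.sum_congr rfl fun p hp => ?_
    rw [Finset.sum_comm, ← Finset.add_sum_erase P _ hp]
    congr 1
    · rw [Finset.card_filter]
      refine Finset.sum_congr rfl fun n _ => ?_
      simp
    · refine Finset.sum_congr rfl fun q _ => Finset.sum_congr rfl fun n _ => ?_
      simp only [hI]
  obtain ⟨G, hG⟩ : ∃ G : Finset ℕ, G = (Icc 1 N).filter fun n => 0 < t n := ⟨_, rfl⟩
  have h1 : ((∑ n ∈ Icc 1 N, t n : ℕ) : ℝ) = ∑ n ∈ G, (t n : ℝ) := by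
    push_cast
    rw [hG, Finset.sum_filter]
    refine Finset.sum_congr rfl fun v _ => ?_
    by_cases h : 0 < t v
    · rw [if_pos h]
    · rw [if_neg h]
      have : t v = 0 := by omega
      rw [this]
      simp
  have h2 := sq_sum_le_card_mul_sum_sq (s := G) (f := fun n => (t n : ℝ))
  have h3 : (G.card : ℝ) ≤ M := by
    refine le_trans ?_ hM
    have h4 : G ⊆ (Icc 1 N).filter fun n : ℕ => ∃ p ∈ P, (p : ℤ) ∣ (n : ℤ) - a p := by
      intro n hn
      rw [hG, Finset.mem_filter] at hn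
      rw [Finset.mem_filter]
      refine ⟨hn.1, ?_⟩
      have h6 := hn.2
      rw [ht, Finset.card_pos] at h6
      obtain ⟨p, hp⟩ := h6
      rw [Finset.mem_filter] at hp
      exact ⟨p, hp.1, (hI n p).1 hp.2⟩
    exact_mod_cast Finset.card_le_card h4
  have h4 : ∑ n ∈ G, (t n : ℝ) ^ 2 ≤ 2 * P.card * N / x + (pairs N P a : ℝ) := by
    have h5 : ∑ n ∈ G, (t n : ℝ) ^ 2 ≤ ∑ n ∈ Icc 1 N, (t n : ℝ) ^ 2 := by
      rw [hG]
      exact Finset.sum_le_sum_of_subset_of_nonneg (Finset.filter_subset _ _)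
        fun _ _ _ => sq_nonneg _
    have h6 : ∑ n ∈ Icc 1 N, (t n : ℝ) ^ 2 =
        ((∑ n ∈ Icc 1 N, t n : ℕ) : ℝ) + (pairs N P a : ℝ) := by exact_mod_cast hsq
    linarith
  calc ((P.card : ℝ) * N / (4 * x)) ^ 2 ≤ ((∑ n ∈ Icc 1 N, t n : ℕ) : ℝ) ^ 2 :=
        pow_le_pow_left₀ (by positivity) hlow 2
    _ ≤ (G.card : ℝ) * ∑ n ∈ G, (t n : ℝ) ^ 2 := by
        rw [h1]
        exact h2
    _ ≤ _ := mul_le_mul h3 h4 (Finset.sum_nonneg fun _ _ => sq_nonneg _)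
        (le_trans (by positivity) h3)

end Pool.Agent.Hhelper69.Ray
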