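import Mathlib

/-!
# Ray/Near: the three elementary inputs

The proofs of this file were typed by helper88 (near_count), helper78 (sum_inv_le) and helper1
(the set Both).
-/

set_option autoImplicit false

namespace Pool.Agent.Hhelper69.Ray

theorem window_card (T : Finset ℕ) (L : ℝ) (hL : 0 ≤ L)
    (h : ∀ a ∈ T, ∀ b ∈ T, (a : ℝ) - b ≤ L) : (T.card : ℝ) ≤ L + 1 := by
  rcases T.eq_empty_or_nonempty with he | hne
  · rw [he]; simp; linarith
  have hsub : T ⊆ Finset.Icc (T.min' hne) (T.max' hne) := by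
    intro a ha
    exact Finset.mem_Icc.2 ⟨T.min'_le a ha, T.le_max' a ha⟩
  have h1 := Finset.card_le_card hsub
  rw [Nat.card_Icc] at h1
  have h2 := h _ (T.max'_mem hne) _ (T.min'_mem hne)
  have h3 : T.min' hne ≤ T.max' hne := T.min'_le _ (T.max'_mem hne)
  have h4 : (T.card : ℝ) ≤ ((T.max' hne + 1 - T.min' hne : ℕ) : ℝ) := by exact_mod_cast h1
  rw [Nat.cast_sub (by omega)] at h4
  push_cast at h4
  linarith

open Classical in
theorem near_count (N p q : ℕ) (x γ : ℝ) (hx : 2 ≤ x) (hxp : x ≤ p) (hxq : x ≤ q)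
    (hp2 : (p : ℝ) ≤ 2 * x) (hq2 : (q : ℝ) ≤ 2 * x) (hpq : p ≠ q) :
    (((Finset.Icc 1 N).filter fun n : ℕ =>
      ∃ m : ℤ, |(n : ℝ) / p - n / q - γ - m| < 1 / x).card : ℝ) ≤
      3 * N / x + 16 * x / |(p : ℝ) - q| + 2 := by
  have hx0 : (0 : ℝ) < x := by linarith
  have hp0 : (0 : ℝ) < p := by linarith
  have hq0 : (0 : ℝ) < q := by linarith
  set D : ℝ := |(p : ℝ) - q| with hD
  have hD1 : 1 ≤ D := by
    rcases lt_or_gt_of_ne hpq with h | h
    · have : (p : ℝ) + 1 ≤ q := by exact_mod_cast h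
      rw [hD, abs_sub_comm]
      exact le_trans (by linarith) (le_abs_self _)
    · have : (q : ℝ) + 1 ≤ p := by exact_mod_cast h
      rw [hD]
      exact le_trans (by linarith) (le_abs_self _)
  have hDx : D ≤ x := by
    rw [hD, abs_le]; constructor <;> linarith
  have hD0 : 0 < D := by linarith
  set b : ℝ := D / (p * q) with hb
  have hpq0 : (0 : ℝ) < p * q := by positivity
  have hb0 : 0 < b := by positivity
  have hpqx : x * x ≤ (p : ℝ) * q := mul_le_mul hxp hxq hx0.le hp0.le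
  have hpqx' : (p : ℝ) * q ≤ 4 * x * x := by nlinarith
  have hb1 : b ≤ 1 / x := by
    rw [hb, div_le_div_iff₀ hpq0 hx0]
    nlinarith
  have hinv : 1 / (x * b) ≤ 4 * x / D := by
    rw [hb, div_le_div_iff₀ (by positivity) hD0]
    have : 4 * x * (x * (D / (p * q))) = (4 * x * x) * D / (p * q) := by ring
    rw [this, one_mul, le_div_iff₀ hpq0]
    nlinarith
  -- reduction to the absolute value
  obtain ⟨γ', hred⟩ : ∃ γ' : ℝ, ∀ n : ℕ, (∃ m : ℤ, |(n : ℝ) / p - n / q - γ - m| < 1 / x) →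
      ∃ m : ℤ, |(n : ℝ) * b - γ' - m| < 1 / x := by
    rcases lt_or_gt_of_ne hpq with h | h
    · have hlt : (p : ℝ) < q := by exact_mod_cast h
      refine ⟨γ, ?_⟩
      rintro n ⟨m, hm⟩
      have hβ : (n : ℝ) / p - n / q = n * (((q : ℝ) - p) / (p * q)) := by
        field_simp
      refine ⟨m, ?_⟩
      have hDe : D = q - p := by rw [hD, abs_sub_comm, abs_of_pos (by linarith)]
      rw [hβ] at hm
      rw [hb, hDe]
      exact hm
    · have hlt : (q : ℝ) < p := by exact_mod_cast h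
      refine ⟨-γ, ?_⟩
      rintro n ⟨m, hm⟩
      have hβ : (n : ℝ) / p - n / q = n * (((q : ℝ) - p) / (p * q)) := by
        field_simp
      refine ⟨-m, ?_⟩
      have hDe : D = p - q := by rw [hD, abs_of_pos (by linarith)]
      rw [hβ] at hm
      rw [hb, hDe, ← abs_neg]
      have : -((n : ℝ) * (((p : ℝ) - q) / (p * q)) - -γ - ((-m : ℤ) : ℝ)) =
          n * (((q : ℝ) - p) / (p * q)) - γ - m := by
        push_cast; ring
      rw [this]
      exact hm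
  obtain ⟨m0, hm0⟩ : ∃ m0 : ℤ, m0 = ⌈-γ' - 1 / 2⌉ := ⟨_, rfl⟩
  have hm0ge : -γ' - 1 / 2 ≤ m0 := by rw [hm0]; exact Int.le_ceil _
  let M : ℕ := ⌊(N : ℝ) * b + 1⌋₊ + 1
  let T : ℕ → Finset ℕ := fun k => (Finset.Icc 1 N).filter
    fun n : ℕ => |(n : ℝ) * b - γ' - ((m0 + k : ℤ) : ℝ)| < 1 / x
  have hx2 : 1 / x ≤ 1 / 2 := one_div_le_one_div_of_le (by norm_num) hx
  have hsub : ((Finset.Icc 1 N).filter fun n : ℕ =>
      ∃ m : ℤ, |(n : ℝ) / p - n / q - γ - m| < 1 / x) ⊆ (Finset.range M).biUnion T := by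
    intro n hn
    rw [Finset.mem_filter] at hn
    obtain ⟨hn1, hn2⟩ := hn
    obtain ⟨m, hm⟩ := hred n hn2
    have hnN := Finset.mem_Icc.1 hn1
    have hnN' : (n : ℝ) ≤ N := by exact_mod_cast hnN.2
    have hm' := abs_lt.1 hm
    have hnb : 0 ≤ (n : ℝ) * b := by positivity
    have hmm : m0 ≤ m := by
      rw [hm0, Int.ceil_le]
      linarith [hm'.2]
    obtain ⟨k, hk⟩ := Int.eq_ofNat_of_zero_le (sub_nonneg.2 hmm)
    have hmk : m = m0 + k := by omega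
    rw [Finset.mem_biUnion]
    refine ⟨k, ?_, ?_⟩
    · rw [Finset.mem_range]
      have h1 : (k : ℝ) ≤ (N : ℝ) * b + 1 := by
        have h2 := hm'.1
        rw [hmk] at h2
        push_cast at h2
        have h3 : (n : ℝ) * b ≤ N * b := mul_le_mul_of_nonneg_right hnN' hb0.le
        linarith
      exact Nat.lt_succ_of_le (Nat.le_floor h1)
    · rw [Finset.mem_filter]
      refine ⟨hn1, ?_⟩
      rw [← hmk]
      exact hm
  have hL0 : 0 ≤ 2 / (x * b) := by positivity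
  have hT : ∀ m ∈ Finset.range M, ((T m).card : ℝ) ≤ 2 / (x * b) + 1 := by
    intro m _
    apply window_card _ _ hL0
    intro a ha c hc
    have h1 := (abs_lt.1 (Finset.mem_filter.1 ha).2)
    have h2 := (abs_lt.1 (Finset.mem_filter.1 hc).2)
    have h3 : ((a : ℝ) - c) * b ≤ 2 / x := by
      have : (2 : ℝ) / x = 1 / x + 1 / x := by ring
      rw [this]
      nlinarith [h1.2, h2.1]
    rw [← div_div, le_div_iff₀ hb0]
    exact h3
  have hcard : (((Finset.Icc 1 N).filter fun n : ℕ =>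
      ∃ m : ℤ, |(n : ℝ) / p - n / q - γ - m| < 1 / x).card : ℝ) ≤ M * (2 / (x * b) + 1) := by
    calc _ ≤ (((Finset.range M).biUnion T).card : ℝ) := by exact_mod_cast Finset.card_le_card hsub
      _ ≤ ((∑ m ∈ Finset.range M, (T m).card : ℕ) : ℝ) := by
          exact_mod_cast Finset.card_biUnion_le
      _ = ∑ m ∈ Finset.range M, ((T m).card : ℝ) := by push_cast; rfl
      _ ≤ ∑ m ∈ Finset.range M, (2 / (x * b) + 1) := Finset.sum_le_sum hT
      _ = M * (2 / (x * b) + 1) := by rw [Finset.sum_const, Finset.card_range, nsmul_eq_mul]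
  have hM : (M : ℝ) ≤ N * b + 2 := by
    have h1 : (⌊(N : ℝ) * b + 1⌋₊ : ℝ) ≤ (N : ℝ) * b + 1 :=
      Nat.floor_le (by positivity)
    simp only [M]
    push_cast
    linarith
  have hNb : (N : ℝ) * b ≤ N / x := by
    have := mul_le_mul_of_nonneg_left hb1 (Nat.cast_nonneg (α := ℝ) N)
    calc (N : ℝ) * b ≤ N * (1 / x) := this
      _ = N / x := by ring
  calc _ ≤ (M : ℝ) * (2 / (x * b) + 1) := hcard
    _ ≤ (N * b + 2) * (2 / (x * b) + 1) := mul_le_mul_of_nonneg_right hM (by positivity)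
    _ = 2 * N / x + N * b + 4 * (1 / (x * b)) + 2 := by
        field_simp
        ring
    _ ≤ 2 * N / x + N / x + 4 * (4 * x / D) + 2 := by
        have := mul_le_mul_of_nonneg_left hinv (by norm_num : (0:ℝ) ≤ 4)
        linarith
    _ = 3 * N / x + 16 * x / D + 2 := by ring

theorem sum_inv_half (x : ℝ) (hx : 2 ≤ x) (S : Finset ℕ) (d : ℕ → ℕ)
    (hinj : Set.InjOn d (S : Set ℕ)) (hd : ∀ q ∈ S, 1 ≤ d q ∧ (d q : ℝ) ≤ x) :
    ∑ q ∈ S, 1 / (d q : ℝ) ≤ 1 + Real.log x := by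
  have hx0 : (0 : ℝ) ≤ x := by linarith
  have h1 : ∑ q ∈ S, 1 / (d q : ℝ) = ∑ k ∈ S.image d, 1 / (k : ℝ) :=
    (Finset.sum_image (f := fun k : ℕ => 1 / (k : ℝ)) hinj).symm
  have h2 : S.image d ⊆ Finset.Icc 1 ⌊x⌋₊ := by
    intro k hk
    obtain ⟨q, hq, rfl⟩ := Finset.mem_image.1 hk
    rw [Finset.mem_Icc]
    exact ⟨(hd q hq).1, Nat.le_floor (hd q hq).2⟩
  have h3 : ∑ k ∈ S.image d, 1 / (k : ℝ) ≤ ∑ k ∈ Finset.Icc 1 ⌊x⌋₊, 1 / (k : ℝ) :=
    Finset.sum_le_sum_of_subset_of_nonneg h2 (fun k _ _ => by positivity)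
  have h4 : ∑ k ∈ Finset.Icc 1 ⌊x⌋₊, 1 / (k : ℝ) = ((harmonic ⌊x⌋₊ : ℚ) : ℝ) := by
    rw [harmonic_eq_sum_Icc]
    push_cast
    simp only [one_div]
  rw [h1]
  refine h3.trans ?_
  rw [h4]
  exact harmonic_floor_le_one_add_log x (by linarith)

theorem sum_inv_le (x : ℝ) (hx : 2 ≤ x) (P : Finset ℕ)
    (hP : ∀ p ∈ P, x ≤ (p : ℝ) ∧ (p : ℝ) < 2 * x) (p : ℕ) (hp : p ∈ P) :
    ∑ q ∈ P.erase p, 1 / |(p : ℝ) - q| ≤ 2 * (1 + Real.log x) := by
  classical
  have hsplit := Finset.sum_filter_add_sum_filter_not (P.erase p) (fun q => q < p)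
    (fun q => 1 / |(p : ℝ) - q|)
  have hpp := hP p hp
  have hA : ∑ q ∈ (P.erase p).filter (fun q => q < p), 1 / |(p : ℝ) - q| ≤ 1 + Real.log x := by
    have e : ∀ q ∈ (P.erase p).filter (fun q => q < p),
        1 / |(p : ℝ) - q| = 1 / ((p - q : ℕ) : ℝ) := by
      intro q hq
      have hlt := (Finset.mem_filter.1 hq).2
      rw [Nat.cast_sub hlt.le, abs_of_nonneg]
      have : (q : ℝ) ≤ p := by exact_mod_cast hlt.le
      linarith
    rw [Finset.sum_congr rfl e]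
    apply sum_inv_half x hx _ (fun q => p - q)
    · intro a ha b hb hab
      have h1 := (Finset.mem_filter.1 (Finset.mem_coe.1 ha)).2
      have h2 := (Finset.mem_filter.1 (Finset.mem_coe.1 hb)).2
      simp only at hab
      omega
    · intro q hq
      have hlt := (Finset.mem_filter.1 hq).2
      have hqP := hP q (Finset.mem_of_mem_erase (Finset.mem_filter.1 hq).1)
      refine ⟨by omega, ?_⟩
      rw [Nat.cast_sub hlt.le]
      linarith [hqP.1, hpp.2]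
  have hB : ∑ q ∈ (P.erase p).filter (fun q => ¬ q < p), 1 / |(p : ℝ) - q| ≤ 1 + Real.log x := by
    have hlt' : ∀ q ∈ (P.erase p).filter (fun q => ¬ q < p), p < q := by
      intro q hq
      have h1 := (Finset.mem_filter.1 hq).2
      have h2 := Finset.ne_of_mem_erase (Finset.mem_filter.1 hq).1
      omega
    have e : ∀ q ∈ (P.erase p).filter (fun q => ¬ q < p),
        1 / |(p : ℝ) - q| = 1 / ((q - p : ℕ) : ℝ) := by
      intro q hq
      have hlt := hlt' q hq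
      rw [Nat.cast_sub hlt.le, abs_sub_comm, abs_of_nonneg]
      have : (p : ℝ) ≤ q := by exact_mod_cast hlt.le
      linarith
    rw [Finset.sum_congr rfl e]
    apply sum_inv_half x hx _ (fun q => q - p)
    · intro a ha b hb hab
      have h1 := hlt' a (Finset.mem_coe.1 ha)
      have h2 := hlt' b (Finset.mem_coe.1 hb)
      simp only at hab
      omega
    · intro q hq
      have hlt := hlt' q hq
      have hqP := hP q (Finset.mem_of_mem_erase (Finset.mem_filter.1 hq).1)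
      refine ⟨by omega, ?_⟩
      rw [Nat.cast_sub hlt.le]
      linarith [hqP.2, hpp.1]
  rw [← hsplit]
  linarith

/-- the set of the `θ` such that `a + ray θ` covers `n` at both `p` and `q` -/
def Both (a : ℕ → ℤ) (p q n : ℕ) : Set ℝ :=
  {θ : ℝ | (p : ℤ) ∣ (n : ℤ) - (a p + ⌊θ * p⌋) ∧ (q : ℤ) ∣ (n : ℤ) - (a q + ⌊θ * q⌋)}

theorem both_measurable (a : ℕ → ℤ) (p q n : ℕ) : MeasurableSet (Both a p q n) := by
  have h : ∀ r : ℕ, MeasurableSet {θ : ℝ | (r : ℤ) ∣ (n : ℤ) - (a r + ⌊θ * r⌋)} := by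
    intro r
    have hm : Measurable (fun θ : ℝ => ⌊θ * r⌋) :=
      Int.measurable_floor.comp (measurable_id.mul_const _)
    exact hm (MeasurableSet.of_discrete (s := {k : ℤ | (r : ℤ) ∣ (n : ℤ) - (a r + k)}))
  exact (h p).inter (h q)

theorem one_near (p : ℕ) (z : ℤ) (θ : ℝ) (hp : 0 < (p : ℝ)) (h0 : 0 ≤ θ) (h1 : θ < 1)
    (h : (p : ℤ) ∣ z - ⌊θ * p⌋) :
    (z : ℝ) / p - ((z / (p : ℤ) : ℤ) : ℝ) ≤ θ ∧
      θ < (z : ℝ) / p - ((z / (p : ℤ) : ℤ) : ℝ) + 1 / p := by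
  have hp' : 0 < (p : ℤ) := by exact_mod_cast hp
  have hf0 : 0 ≤ ⌊θ * p⌋ := Int.floor_nonneg.2 (mul_nonneg h0 hp.le)
  have hf1 : ⌊θ * p⌋ < p := by
    rw [Int.floor_lt]
    push_cast
    nlinarith
  obtain ⟨k, hk⟩ := h
  have hk1 : z / p = k :=
    ((Int.ediv_emod_unique (a := z) (r := ⌊θ * p⌋) (q := k) hp').2
      ⟨by linarith, hf0, hf1⟩).1
  rw [hk1]
  have hkr : (z : ℝ) = (⌊θ * p⌋ : ℝ) + p * k := by
    have : z = ⌊θ * p⌋ + p * k := by linarith
    exact_mod_cast this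
  have a1 := Int.floor_le (θ * p)
  have a2 := Int.lt_floor_add_one (θ * p)
  have e : (z : ℝ) / p - k = (⌊θ * p⌋ : ℝ) / p := by
    rw [hkr]
    field_simp
    ring
  rw [e]
  constructor
  · rw [div_le_iff₀ hp]; exact a1
  · rw [← add_div, lt_div_iff₀ hp]; exact a2

theorem both_near (a : ℕ → ℤ) (p q n : ℕ) (x θ : ℝ) (hx : 0 < x) (hxp : x ≤ p) (hxq : x ≤ q)
    (h0 : 0 ≤ θ) (h1 : θ < 1) (h : θ ∈ Both a p q n) :
    ∃ m : ℤ, |(n : ℝ) / p - n / q - ((a p : ℝ) / p - (a q : ℝ) / q) - m| < 1 / x := by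
  have hp : 0 < (p : ℝ) := hx.trans_le hxp
  have hq : 0 < (q : ℝ) := hx.trans_le hxq
  have hz1 : (p : ℤ) ∣ ((n : ℤ) - a p) - ⌊θ * p⌋ := by
    have := h.1
    rwa [← sub_sub] at this
  have hz2 : (q : ℤ) ∣ ((n : ℤ) - a q) - ⌊θ * q⌋ := by
    have := h.2
    rwa [← sub_sub] at this
  obtain ⟨p1, p2⟩ := one_near p ((n : ℤ) - a p) θ hp h0 h1 hz1
  obtain ⟨q1, q2⟩ := one_near q ((n : ℤ) - a q) θ hq h0 h1 hz2
  refine ⟨(((n : ℤ) - a p) / (p : ℤ)) - (((n : ℤ) - a q) / (q : ℤ)), ?_⟩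
  have b1 : 1 / (p : ℝ) ≤ 1 / x := one_div_le_one_div_of_le hx hxp
  have b2 : 1 / (q : ℝ) ≤ 1 / x := one_div_le_one_div_of_le hx hxq
  have c1 : (((n : ℤ) - a p : ℤ) : ℝ) / p = (n : ℝ) / p - (a p : ℝ) / p := by
    push_cast
    ring
  have c2 : (((n : ℤ) - a q : ℤ) : ℝ) / q = (n : ℝ) / q - (a q : ℝ) / q := by
    push_cast
    ring
  rw [c1] at p1 p2
  rw [c2] at q1 q2
  rw [abs_lt, Int.cast_sub]
  constructor <;> linarith

open MeasureTheory in
theorem both_vol (a : ℕ → ℤ) (p q n : ℕ) (x : ℝ) (hx : 0 < x) (hxp : x ≤ p) :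
    volume (Both a p q n ∩ Set.Ico (0 : ℝ) 1) ≤ ENNReal.ofReal (1 / x) := by
  have hp : 0 < (p : ℝ) := hx.trans_le hxp
  have hsub : Both a p q n ∩ Set.Ico (0 : ℝ) 1 ⊆
      Set.Ico ((((n : ℤ) - a p : ℤ) : ℝ) / p - ((((n : ℤ) - a p) / (p : ℤ) : ℤ) : ℝ))
        ((((n : ℤ) - a p : ℤ) : ℝ) / p - ((((n : ℤ) - a p) / (p : ℤ) : ℤ) : ℝ) + 1 / p) := by
    rintro θ ⟨h, h0, h1⟩
    have hz1 : (p : ℤ) ∣ ((n : ℤ) - a p) - ⌊θ * p⌋ := by
      have := h.1
      rwa [← sub_sub] at this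
    exact one_near p ((n : ℤ) - a p) θ hp h0 h1 hz1
  refine (measure_mono hsub).trans ?_
  rw [Real.volume_Ico]
  apply ENNReal.ofReal_le_ofReal
  have b1 : 1 / (p : ℝ) ≤ 1 / x := one_div_le_one_div_of_le hx hxp
  linarith

end Pool.Agent.Hhelper69.Ray
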