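import Mathlib
import Pool.Agent.Hhelper69.Ray.Near
import Pool.Agent.Hhelper69.Ray.Core

/-!
# Ray/Meas: the average of the pairs of incidences over the ray choices
-/

set_option autoImplicit false

namespace Pool.Agent.Hhelper69.Ray

open Finset MeasureTheory
open scoped ENNReal

/-- the choice `a` shifted by the ray choice -/
noncomputable def ray (a : ℕ → ℤ) (θ : ℝ) : ℕ → ℤ := fun p => a p + ⌊θ * p⌋

theorem pairs_ray (a : ℕ → ℤ) (N : ℕ) (P : Finset ℕ) (θ : ℝ) :
    ((pairs N P (ray a θ) : ℕ) : ℝ≥0∞) = ∑ p ∈ P, ∑ q ∈ P.erase p, ∑ n ∈ Icc 1 N,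
      (Both a p q n).indicator (fun _ => (1 : ℝ≥0∞)) θ := by
  classical
  unfold pairs
  push_cast
  refine Finset.sum_congr rfl fun p _ => Finset.sum_congr rfl fun q _ =>
    Finset.sum_congr rfl fun n _ => ?_
  by_cases h : (p : ℤ) ∣ (n : ℤ) - ray a θ p ∧ (q : ℤ) ∣ (n : ℤ) - ray a θ q
  · rw [if_pos h, Set.indicator_of_mem (show θ ∈ Both a p q n from h)]
  · rw [if_neg h, Set.indicator_of_notMem (show θ ∉ Both a p q n from h)]

theorem pairs_measurable (a : ℕ → ℤ) (N : ℕ) (P : Finset ℕ) :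
    Measurable fun θ : ℝ => ((pairs N P (ray a θ) : ℕ) : ℝ≥0∞) := by
  simp only [pairs_ray]
  refine Finset.measurable_sum _ fun p _ => Finset.measurable_sum _ fun q _ =>
    Finset.measurable_sum _ fun n _ => ?_
  exact measurable_const.indicator (both_measurable a p q n)

/-- the average of the pairs -/
theorem pairs_lintegral (a : ℕ → ℤ) (N : ℕ) (x : ℝ) (P : Finset ℕ) (hx : 2 ≤ x)
    (hP : ∀ p ∈ P, x ≤ (p : ℝ) ∧ (p : ℝ) < 2 * x) :
    ∫⁻ θ, ((pairs N P (ray a θ) : ℕ) : ℝ≥0∞) ∂(volume.restrict (Set.Ico (0 : ℝ) 1)) ≤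
      ENNReal.ofReal ((P.card : ℝ) ^ 2 * (3 * N / x + 2) / x +
        32 * P.card * (1 + Real.log x)) := by
  classical
  have hx0 : 0 < x := by linarith
  simp only [pairs_ray]
  rw [lintegral_finsetSum _ fun p _ => Finset.measurable_sum _ fun q _ =>
    Finset.measurable_sum _ fun n _ => measurable_const.indicator (both_measurable a p q n)]
  have h1 : ∀ p ∈ P, ∫⁻ θ, (∑ q ∈ P.erase p, ∑ n ∈ Icc 1 N,
      (Both a p q n).indicator (fun _ => (1 : ℝ≥0∞)) θ) ∂(volume.restrict (Set.Ico (0 : ℝ) 1)) ≤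
      ENNReal.ofReal ((P.card : ℝ) * (3 * N / x + 2) / x + 32 * (1 + Real.log x)) := by
    intro p hp
    rw [lintegral_finsetSum _ fun q _ =>
      Finset.measurable_sum _ fun n _ => measurable_const.indicator (both_measurable a p q n)]
    have h2 : ∀ q ∈ P.erase p, ∫⁻ θ, (∑ n ∈ Icc 1 N,
        (Both a p q n).indicator (fun _ => (1 : ℝ≥0∞)) θ) ∂(volume.restrict (Set.Ico (0 : ℝ) 1)) ≤
        ENNReal.ofReal ((3 * N / x + 16 * x / |(p : ℝ) - q| + 2) / x) := by
      intro q hq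
      rw [Finset.mem_erase] at hq
      rw [lintegral_finsetSum _ fun n _ => measurable_const.indicator (both_measurable a p q n)]
      have h3 : ∀ n ∈ Icc 1 N, ∫⁻ θ, (Both a p q n).indicator (fun _ => (1 : ℝ≥0∞)) θ
          ∂(volume.restrict (Set.Ico (0 : ℝ) 1)) ≤
          if (∃ m : ℤ, |(n : ℝ) / p - n / q - ((a p : ℝ) / p - (a q : ℝ) / q) - m| < 1 / x) then ENNReal.ofReal (1 / x) else 0 := by
        intro n _
        rw [lintegral_indicator_const (both_measurable a p q n), one_mul,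
          Measure.restrict_apply (both_measurable a p q n)]
        by_cases h : ∃ m : ℤ, |(n : ℝ) / p - n / q - ((a p : ℝ) / p - (a q : ℝ) / q) - m| < 1 / x
        · rw [if_pos h]
          exact both_vol a p q n x hx0 (hP p hp).1
        · rw [if_neg h]
          have he : Both a p q n ∩ Set.Ico (0 : ℝ) 1 = ∅ := by
            rw [Set.eq_empty_iff_forall_notMem]
            intro θ hθ
            exact h (both_near a p q n x θ hx0 (hP p hp).1 (hP q hq.2).1 hθ.2.1 hθ.2.2 hθ.1)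
          rw [he]
          simp
      refine (Finset.sum_le_sum h3).trans ?_
      rw [← Finset.sum_filter, Finset.sum_const, nsmul_eq_mul]
      have h4 := near_count N p q x ((a p : ℝ) / p - (a q : ℝ) / q) hx (hP p hp).1 (hP q hq.2).1 (hP p hp).2.le
        (hP q hq.2).2.le (fun h => hq.1 h.symm)
      have h5 : ((((Icc 1 N).filter fun n : ℕ =>
          ∃ m : ℤ, |(n : ℝ) / p - n / q - ((a p : ℝ) / p - (a q : ℝ) / q) - m| < 1 / x).card : ℕ) : ℝ≥0∞) ≤
          ENNReal.ofReal (3 * N / x + 16 * x / |(p : ℝ) - q| + 2) := by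
        rw [← ENNReal.ofReal_natCast]
        refine ENNReal.ofReal_le_ofReal ?_
        convert h4
      calc ((((Icc 1 N).filter fun n : ℕ =>
          ∃ m : ℤ, |(n : ℝ) / p - n / q - ((a p : ℝ) / p - (a q : ℝ) / q) - m| < 1 / x).card : ℕ) : ℝ≥0∞) * ENNReal.ofReal (1 / x)
          ≤ ENNReal.ofReal (3 * N / x + 16 * x / |(p : ℝ) - q| + 2) * ENNReal.ofReal (1 / x) :=
            mul_le_mul_left h5 _
        _ = _ := by
            rw [← ENNReal.ofReal_mul (by positivity), mul_one_div]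
    refine (Finset.sum_le_sum h2).trans ?_
    rw [← ENNReal.ofReal_sum_of_nonneg fun q _ => by positivity]
    refine ENNReal.ofReal_le_ofReal ?_
    have h6 : ∑ q ∈ P.erase p, (3 * N / x + 16 * x / |(p : ℝ) - q| + 2) / x =
        ((P.erase p).card : ℝ) * ((3 * N / x + 2) / x) +
          16 * ∑ q ∈ P.erase p, 1 / |(p : ℝ) - q| := by
      rw [Finset.mul_sum, ← nsmul_eq_mul, ← Finset.sum_const, ← Finset.sum_add_distrib]
      refine Finset.sum_congr rfl fun q _ => ?_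
      field_simp
      ring
    rw [h6]
    have h7 := sum_inv_le x hx P hP p hp
    have h8 : ((P.erase p).card : ℝ) ≤ P.card := by exact_mod_cast Finset.card_erase_le
    have h9 : ((P.erase p).card : ℝ) * ((3 * N / x + 2) / x) ≤
        P.card * ((3 * N / x + 2) / x) := mul_le_mul_of_nonneg_right h8 (by positivity)
    have h10 : (P.card : ℝ) * (3 * N / x + 2) / x = P.card * ((3 * N / x + 2) / x) := by ring
    rw [h10]
    linarith
  refine (Finset.sum_le_sum h1).trans ?_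
  rw [Finset.sum_const, nsmul_eq_mul, ← ENNReal.ofReal_natCast,
    ← ENNReal.ofReal_mul (by positivity)]
  refine ENNReal.ofReal_le_ofReal (le_of_eq ?_)
  ring

/-- the measure of the ray choices with a small union -/
theorem meas_core (a : ℕ → ℤ) (N : ℕ) (x M : ℝ) (P : Finset ℕ) (hM : 0 ≤ M)
    (hP : ∀ p ∈ P, p.Prime ∧ x ≤ (p : ℝ) ∧ (p : ℝ) < 2 * x) (hx : 2 ≤ x) (h2x : 2 * x ≤ N)
    (hPc : 0 < P.card) (B : Set ℝ)
    (hB : ∀ θ ∈ B, (0 ≤ θ ∧ θ < 1) ∧ (((Icc 1 N).filter fun n : ℕ =>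
      ∃ p ∈ P, (p : ℤ) ∣ (n : ℤ) - ray a θ p).card : ℝ) ≤ M) :
    volume B ≤ ENNReal.ofReal (M * (2 * P.card * N / x +
      ((P.card : ℝ) ^ 2 * (3 * N / x + 2) / x + 32 * P.card * (1 + Real.log x))) /
      ((P.card : ℝ) * N / (4 * x)) ^ 2) := by
  classical
  have hx0 : 0 < x := by linarith
  have hN0 : (0 : ℝ) < N := by linarith
  have hPc0 : (0 : ℝ) < P.card := by exact_mod_cast hPc
  have hlog : 0 ≤ Real.log x := Real.log_nonneg (by linarith)
  obtain ⟨c, hc⟩ : ∃ c : ℝ, c = ((P.card : ℝ) * N / (4 * x)) ^ 2 := ⟨_, rfl⟩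
  obtain ⟨K, hK⟩ : ∃ K : ℝ, K = 2 * P.card * N / x := ⟨_, rfl⟩
  obtain ⟨W, hW⟩ : ∃ W : ℝ, W = (P.card : ℝ) ^ 2 * (3 * N / x + 2) / x +
    32 * P.card * (1 + Real.log x) := ⟨_, rfl⟩
  rw [← hc, ← hK, ← hW]
  have hc0 : 0 < c := by rw [hc]; positivity
  have hK0 : 0 ≤ K := by rw [hK]; positivity
  have hW0 : 0 ≤ W := by rw [hW]; positivity
  obtain ⟨f, hf⟩ : ∃ f : ℝ → ℝ≥0∞, ∀ θ, f θ = ENNReal.ofReal M * (ENNReal.ofReal K +
    ((pairs N P (ray a θ) : ℕ) : ℝ≥0∞)) := ⟨_, fun _ => rfl⟩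
  have hfe : f = fun θ => ENNReal.ofReal M * (ENNReal.ofReal K +
    ((pairs N P (ray a θ) : ℕ) : ℝ≥0∞)) := funext hf
  have hmp := pairs_measurable a N P
  have hfm : Measurable f := by
    rw [hfe]
    exact (hmp.const_add _).const_mul _
  have hms : MeasurableSet {θ : ℝ | ENNReal.ofReal c ≤ f θ} :=
    measurableSet_le measurable_const hfm
  have h1 : B ⊆ {θ : ℝ | ENNReal.ofReal c ≤ f θ} ∩ Set.Ico (0 : ℝ) 1 := by
    intro θ hθ
    obtain ⟨h2, h3⟩ := hB θ hθ
    refine ⟨?_, h2⟩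
    show ENNReal.ofReal c ≤ f θ
    rw [hf, ← ENNReal.ofReal_natCast, ← ENNReal.ofReal_add hK0 (by positivity),
      ← ENNReal.ofReal_mul hM, hc, hK]
    exact ENNReal.ofReal_le_ofReal (core N x M P (ray a θ) hP hx h2x h3)
  have h2 : volume B ≤ (volume.restrict (Set.Ico (0 : ℝ) 1)) {θ : ℝ | ENNReal.ofReal c ≤ f θ} := by
    rw [Measure.restrict_apply hms]
    exact measure_mono h1
  have h3 := mul_meas_ge_le_lintegral (μ := volume.restrict (Set.Ico (0 : ℝ) 1)) hfm
    (ENNReal.ofReal c)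
  have h4 : ∫⁻ θ, f θ ∂(volume.restrict (Set.Ico (0 : ℝ) 1)) ≤ ENNReal.ofReal (M * (K + W)) := by
    have e1 : ∫⁻ θ, f θ ∂(volume.restrict (Set.Ico (0 : ℝ) 1)) = ENNReal.ofReal M *
        ∫⁻ θ, (ENNReal.ofReal K + ((pairs N P (ray a θ) : ℕ) : ℝ≥0∞))
          ∂(volume.restrict (Set.Ico (0 : ℝ) 1)) := by
      rw [hfe]
      exact lintegral_const_mul _ (hmp.const_add _)
    rw [e1, lintegral_add_left measurable_const, lintegral_const,
      Measure.restrict_apply MeasurableSet.univ, Set.univ_inter, Real.volume_Ico]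
    have h5 := pairs_lintegral a N x P hx fun p hp => (hP p hp).2
    rw [← hW] at h5
    rw [ENNReal.ofReal_mul hM, ENNReal.ofReal_add hK0 hW0]
    simp only [sub_zero, ENNReal.ofReal_one, mul_one]
    exact mul_le_mul_right (add_le_add le_rfl h5) _
  have h5 : ENNReal.ofReal c * volume B ≤ ENNReal.ofReal (M * (K + W)) :=
    (mul_le_mul_right h2 _).trans (h3.trans h4)
  rw [ENNReal.ofReal_div_of_pos hc0, ENNReal.le_div_iff_mul_le
    (Or.inl (by rw [ne_eq, ENNReal.ofReal_eq_zero]; linarith)) (Or.inl ENNReal.ofReal_ne_top),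
    mul_comm]
  exact h5

end Pool.Agent.Hhelper69.Ray
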