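import Mathlib
import Pool.Prelude.Def_F_b2ee6af0
import Pool.Agent.Hhelper87.Cover.Main
import Pool.Agent.Hhelper69.Ray.Meas

/-!
# Ray/Main: for every choice `a` almost all the choices `a + ray θ` have a large union
-/

set_option autoImplicit false

namespace Pool.Agent.Hhelper69.Ray

open Finset Filter Topology MeasureTheory N7c497599

/-- the union over the primes of `P` is part of the sieved set -/
theorem union_le (N : ℕ) (a : ℕ → ℤ) (lo hi : ℝ) (P : Finset ℕ)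
    (hP : ∀ p ∈ P, p.Prime ∧ lo ≤ (p : ℝ) ∧ (p : ℝ) < hi) :
    ((Icc 1 N).filter fun n : ℕ => ∃ p ∈ P, (p : ℤ) ∣ (n : ℤ) - a p).card ≤
      sievedCard N a lo hi := by
  classical
  unfold sievedCard sievedSet
  refine Finset.card_le_card_of_injOn (fun n : ℕ => (n : ℤ)) ?_
    (fun m _ n _ h => Int.natCast_inj.1 h)
  intro n hn
  rw [Finset.mem_coe, Finset.mem_filter, Finset.mem_Icc] at hn
  obtain ⟨⟨h1, h2⟩, p, hpP, hinc⟩ := hn
  rw [Finset.mem_coe, Finset.mem_filter, Finset.mem_Icc]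
  have h1' : (1 : ℤ) ≤ (n : ℤ) := by exact_mod_cast h1
  have h2' : (n : ℤ) ≤ (N : ℤ) := by exact_mod_cast h2
  exact ⟨⟨h1', h2'⟩, p, (hP p hpP).1, (hP p hpP).2.1, (hP p hpP).2.2, hinc⟩

/-- the final comparison -/
theorem final_le (N x η δ K : ℝ) (hx : 2 ≤ x) (h2x : 2 * x ≤ N) (hη : 0 < η)
    (hK : 0 < K) (hPc : x ≤ K * N ^ η)
    (hlarge : (16 * (38 + 32 / η)) * N ^ (2 * η) ≤ N ^ δ) :
    (2 * K * N / x + (K ^ 2 * (3 * N / x + 2) / x + 32 * K * (1 + Real.log x))) /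
      (K * N / (4 * x)) ^ 2 ≤ N ^ (δ - 1) := by
  have hx0 : 0 < x := by linarith
  have hN0 : 0 < N := by linarith
  have hN1 : 1 ≤ N := by linarith
  have hNη : 1 ≤ N ^ η := Real.one_le_rpow hN1 hη.le
  have hlog0 : 0 ≤ Real.log x := Real.log_nonneg (by linarith)
  have hlog : Real.log x ≤ N ^ η / η := by
    have h1 : Real.log x ≤ Real.log N := Real.log_le_log hx0 (by linarith)
    exact h1.trans (Real.log_le_rpow_div hN0.le hη)
  rw [div_le_iff₀ (by positivity)]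
  have e1 : N ^ (δ - 1) * (K * N / (4 * x)) ^ 2 = (K ^ 2 * N / x ^ 2) * (N ^ δ / 16) := by
    rw [Real.rpow_sub hN0, Real.rpow_one]
    field_simp
    ring
  rw [e1]
  have ha : 2 * K * N / x ≤ (K ^ 2 * N / x ^ 2) * (2 * N ^ η) := by
    have h1 : 2 * K * N / x = (2 * K * N / x ^ 2) * x := by
      field_simp
    have h2 : (K ^ 2 * N / x ^ 2) * (2 * N ^ η) = (2 * K * N / x ^ 2) * (K * N ^ η) := by
      ring
    rw [h1, h2]
    exact mul_le_mul_of_nonneg_left hPc (by positivity)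
  have hb : K ^ 2 * (3 * N / x + 2) / x ≤ (K ^ 2 * N / x ^ 2) * 4 := by
    have h1 : K ^ 2 * (3 * N / x + 2) / x = (K ^ 2 / x ^ 2) * (3 * N + 2 * x) := by
      field_simp
    have h2 : (K ^ 2 * N / x ^ 2) * 4 = (K ^ 2 / x ^ 2) * (4 * N) := by ring
    rw [h1, h2]
    exact mul_le_mul_of_nonneg_left (by linarith) (by positivity)
  have hc : 32 * K * (1 + Real.log x) ≤ (K ^ 2 * N / x ^ 2) * (32 * N ^ η * (1 + Real.log x)) := by
    have h1 : 32 * K * (1 + Real.log x) = (32 * K * (1 + Real.log x) / x ^ 2) * (x * x) := by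
      field_simp
    have h2 : (K ^ 2 * N / x ^ 2) * (32 * N ^ η * (1 + Real.log x)) =
        (32 * K * (1 + Real.log x) / x ^ 2) * ((K * N ^ η) * N) := by ring
    rw [h1, h2]
    refine mul_le_mul_of_nonneg_left ?_ (by positivity)
    exact mul_le_mul hPc (by linarith) hx0.le (by positivity)
  have hd : 2 * N ^ η + 4 + 32 * N ^ η * (1 + Real.log x) ≤ N ^ δ / 16 := by
    have e2 : N ^ (2 * η) = N ^ η * N ^ η := by
      rw [← Real.rpow_add hN0]
      congr 1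
      ring
    have h1 : 1 + Real.log x ≤ (1 + 1 / η) * N ^ η := by
      have : (1 + 1 / η) * N ^ η = N ^ η + N ^ η / η := by ring
      rw [this]
      linarith
    have h2 : 32 * N ^ η * (1 + Real.log x) ≤ 32 * N ^ η * ((1 + 1 / η) * N ^ η) :=
      mul_le_mul_of_nonneg_left h1 (by positivity)
    have h3 : N ^ η ≤ N ^ η * N ^ η := by nlinarith
    have h4 : (16 * (38 + 32 / η)) * N ^ (2 * η) =
        16 * (6 * (N ^ η * N ^ η) + 32 * N ^ η * ((1 + 1 / η) * N ^ η)) := by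
      rw [e2]
      ring
    rw [h4] at hlarge
    linarith
  calc 2 * K * N / x + (K ^ 2 * (3 * N / x + 2) / x + 32 * K * (1 + Real.log x))
      ≤ (K ^ 2 * N / x ^ 2) * (2 * N ^ η) + ((K ^ 2 * N / x ^ 2) * 4 +
        (K ^ 2 * N / x ^ 2) * (32 * N ^ η * (1 + Real.log x))) :=
        add_le_add ha (add_le_add hb hc)
    _ = (K ^ 2 * N / x ^ 2) * (2 * N ^ η + 4 + 32 * N ^ η * (1 + Real.log x)) := by ring
    _ ≤ _ := mul_le_mul_of_nonneg_left hd (by positivity)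

theorem ray_main (α δ : ℝ) (hα : 0 < α) (hα1 : α < 1) (hδ : 0 < δ) :
    ∀ᶠ N : ℕ in atTop, ∀ hi : ℝ, 2 * (N : ℝ) ^ α ≤ hi → ∀ a : ℕ → ℤ, ∀ M : ℝ, 0 ≤ M →
      volume {θ : ℝ | θ ∈ Set.Ico (0 : ℝ) 1 ∧
        (sievedCard N (fun p => a p + ⌊θ * p⌋) ((N : ℝ) ^ α) hi : ℝ) < M} ≤
        ENNReal.ofReal (M * (N : ℝ) ^ (δ - 1)) := by
  classical
  have hcast := tendsto_natCast_atTop_atTop (R := ℝ)
  obtain ⟨η, hη⟩ : ∃ η : ℝ, η = δ / 4 := ⟨_, rfl⟩
  have hη0 : 0 < η := by rw [hη]; positivity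
  have hprimes : ∀ᶠ x : ℝ in atTop, ∀ S : Finset ℕ,
      (∀ p : ℕ, p.Prime → x ^ α ≤ p → (p : ℝ) < 2 * x ^ α → p ∈ S) →
      (x ^ α) ^ (1 - η) ≤ S.card :=
    (tendsto_rpow_atTop hα).eventually (Pool.Agent.Hhelper87.Cover.primes_count η hη0)
  filter_upwards [hcast.eventually hprimes,
    hcast.eventually (Pool.Agent.Hhelper87.Cover.ev_pow (16 * (38 + 32 / η)) (2 * η) δ
      (by linarith)),
    hcast.eventually (Pool.Agent.Hhelper87.Cover.ev_pow 2 0 α hα),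
    hcast.eventually (Pool.Agent.Hhelper87.Cover.ev_pow 2 α 1 hα1),
    eventually_ge_atTop 2] with N hpr hl1 hl3 hl4 hN2 hi hhi a M hM0
  rw [Real.rpow_zero, mul_one] at hl3
  rw [Real.rpow_one] at hl4
  have hN0 : (0 : ℝ) < N := by
    have : (2 : ℝ) ≤ N := by exact_mod_cast hN2
    linarith
  obtain ⟨x, hx⟩ : ∃ x : ℝ, x = (N : ℝ) ^ α := ⟨_, rfl⟩
  rw [← hx] at hpr hl4 hl3 hhi ⊢
  have hx0 : 0 < x := by linarith
  -- the primes
  obtain ⟨P, hP⟩ : ∃ P : Finset ℕ, P = (Finset.range ⌈2 * x⌉₊).filter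
    (fun p : ℕ => p.Prime ∧ x ≤ (p : ℝ)) := ⟨_, rfl⟩
  have hPmem : ∀ p : ℕ, p ∈ P ↔ p.Prime ∧ x ≤ (p : ℝ) ∧ (p : ℝ) < 2 * x := by
    intro p
    rw [hP, Finset.mem_filter, Finset.mem_range, Nat.lt_ceil]
    tauto
  have hPc : x ≤ P.card * (N : ℝ) ^ η := by
    have h1 := hpr P fun p hp h2 h3 => (hPmem p).2 ⟨hp, h2, h3⟩
    have h2 : x ^ (1 - η) * x ^ η = x := by
      rw [← Real.rpow_add hx0]
      simp
    have h3 : x ^ η ≤ (N : ℝ) ^ η := by
      refine Real.rpow_le_rpow hx0.le ?_ hη0.le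
      linarith
    calc x = x ^ (1 - η) * x ^ η := h2.symm
      _ ≤ P.card * (N : ℝ) ^ η := mul_le_mul h1 h3 (by positivity) (by positivity)
  have hPc0 : (0 : ℝ) < P.card := by
    by_contra h
    have h1 : (P.card : ℝ) = 0 := le_antisymm (not_lt.1 h) (by positivity)
    rw [h1, zero_mul] at hPc
    linarith
  have h1 := meas_core a N x M P hM0 (fun p hp => (hPmem p).1 hp) hl3.le hl4.le
    (by exact_mod_cast hPc0)
    {θ : ℝ | θ ∈ Set.Ico (0 : ℝ) 1 ∧ (sievedCard N (fun p => a p + ⌊θ * p⌋) x hi : ℝ) < M} (by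
      intro θ hθ
      refine ⟨hθ.1, ?_⟩
      refine le_trans ?_ hθ.2.le
      exact_mod_cast union_le N (ray a θ) x hi P fun p hp =>
        ⟨((hPmem p).1 hp).1, ((hPmem p).1 hp).2.1, ((hPmem p).1 hp).2.2.trans_le hhi⟩)
  refine h1.trans (ENNReal.ofReal_le_ofReal ?_)
  rw [mul_div_assoc]
  exact mul_le_mul_of_nonneg_left
    (final_le N x η δ P.card hl3.le hl4.le hη0 hPc0 hPc hl1.le) hM0

end Pool.Agent.Hhelper69.Ray
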