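import Mathlib
import Pool.Agent.Hhelper69.Ray.Main

/-!
# Ray/AE: the almost everywhere statement (Borel-Cantelli along the powers of 2)
-/

set_option autoImplicit false

namespace Pool.Agent.Hhelper69.Ray

open Finset Filter Topology MeasureTheory N7c497599

theorem sieved_mono (N N' : ℕ) (a : ℕ → ℤ) (lo hi lo' hi' : ℝ) (hN : N' ≤ N) (hlo : lo ≤ lo')
    (hhi : hi' ≤ hi) : sievedCard N' a lo' hi' ≤ sievedCard N a lo hi := by
  classical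
  unfold sievedCard sievedSet
  refine Finset.card_le_card ?_
  intro n hn
  rw [Finset.mem_filter, Finset.mem_Icc] at hn ⊢
  obtain ⟨⟨h1, h2⟩, p, hp, h3, h4, h5⟩ := hn
  have hN' : (N' : ℤ) ≤ N := by exact_mod_cast hN
  exact ⟨⟨h1, h2.trans hN'⟩, p, hp, hlo.trans h3, h4.trans_le hhi, h5⟩

theorem ae_eps (a : ℕ → ℤ) (ε : ℝ) (hε : 0 < ε) (hε1 : ε < 1) :
    ∀ᵐ θ : ℝ, θ ∈ Set.Ico (0 : ℝ) 1 → ∀ᶠ N : ℕ in atTop, (N : ℝ) ^ (1 - ε) ≤
      (sievedCard N (fun p => a p + ⌊θ * p⌋) ((N : ℝ) ^ (0.51 : ℝ)) ((N : ℝ) ^ (0.52 : ℝ)) : ℝ) := by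
  classical
  obtain ⟨X, hX⟩ : ∃ X : ℕ → ℝ, ∀ k, X k = ((2 ^ k : ℕ) : ℝ) := ⟨_, fun _ => rfl⟩
  have htn : Tendsto (fun k : ℕ => 2 ^ k) atTop atTop :=
    tendsto_pow_atTop_atTop_of_one_lt (by norm_num)
  have htX : Tendsto X atTop atTop := by
    have h1 := tendsto_natCast_atTop_atTop (R := ℝ)
    have h2 := h1.comp htn
    refine h2.congr fun k => ?_
    rw [hX]
    rfl
  obtain ⟨B, hB⟩ : ∃ B : ℕ → Set ℝ, ∀ k, B k = {θ : ℝ | θ ∈ Set.Ico (0 : ℝ) 1 ∧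
      (sievedCard (2 ^ k) (fun p => a p + ⌊θ * p⌋) (X k ^ (0.515 : ℝ))
        (2 * X k ^ (0.515 : ℝ)) : ℝ) < X k ^ (1 - ε / 2)} := ⟨_, fun _ => rfl⟩
  obtain ⟨r, hr⟩ : ∃ r : ℝ, r = (2 : ℝ) ^ (-(ε / 4)) := ⟨_, rfl⟩
  have hr0 : 0 < r := by rw [hr]; positivity
  have hr1 : r < 1 := by
    rw [hr]
    exact Real.rpow_lt_one_of_one_lt_of_neg (by norm_num) (by linarith)
  have hvol : ∀ᶠ k : ℕ in atTop, volume (B k) ≤ ENNReal.ofReal (r ^ k) := by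
    filter_upwards [htn.eventually (ray_main 0.515 (ε / 4) (by norm_num) (by norm_num)
      (by positivity))] with k hk
    have h1 := hk (2 * ((2 ^ k : ℕ) : ℝ) ^ (0.515 : ℝ)) le_rfl a (X k ^ (1 - ε / 2)) (by
      rw [hX]; positivity)
    rw [hB, hX]
    rw [hX] at h1
    refine h1.trans (ENNReal.ofReal_le_ofReal (le_of_eq ?_))
    rw [← Real.rpow_add (by positivity), hr, ← Real.rpow_natCast, ← Real.rpow_mul (by norm_num)]
    push_cast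
    rw [← Real.rpow_natCast, ← Real.rpow_mul (by norm_num)]
    congr 1
    ring
  obtain ⟨k0, hk0⟩ := eventually_atTop.1 hvol
  have hsum : Summable fun k : ℕ => r ^ (k + k0) := by
    simp only [pow_add]
    exact (summable_geometric_of_lt_one hr0.le hr1).mul_right _
  have hne : ∑' k : ℕ, volume (B (k + k0)) ≠ ⊤ := by
    have h1 : ∑' k : ℕ, volume (B (k + k0)) ≤ ∑' k : ℕ, ENNReal.ofReal (r ^ (k + k0)) :=
      ENNReal.tsum_le_tsum fun k => hk0 (k + k0) (by omega)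
    exact ne_top_of_le_ne_top hsum.tsum_ofReal_ne_top h1
  have hbc := ae_eventually_notMem hne
  filter_upwards [hbc] with θ hθ hθ01
  obtain ⟨K, hK⟩ := eventually_atTop.1 hθ
  -- the comparisons for large k
  have hcmp : ∀ᶠ k : ℕ in atTop, 2 * X k ^ (0 : ℝ) < X k ^ (0.005 : ℝ) ∧
      2 * X k ^ (0.515 : ℝ) < X k ^ (0.52 : ℝ) ∧ 2 * X k ^ (1 - ε) < X k ^ (1 - ε / 2) := by
    filter_upwards [htX.eventually (Pool.Agent.Hhelper87.Cover.ev_pow 2 0 0.005 (by norm_num)),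
      htX.eventually (Pool.Agent.Hhelper87.Cover.ev_pow 2 0.515 0.52 (by norm_num)),
      htX.eventually (Pool.Agent.Hhelper87.Cover.ev_pow 2 (1 - ε) (1 - ε / 2) (by linarith))]
      with k h1 h2 h3
    exact ⟨h1, h2, h3⟩
  obtain ⟨K2, hK2⟩ := eventually_atTop.1 hcmp
  rw [eventually_atTop]
  refine ⟨2 ^ (K + k0 + K2), fun N hN => ?_⟩
  have hN0 : N ≠ 0 := by
    have : 0 < 2 ^ (K + k0 + K2) := by positivity
    omega
  obtain ⟨k, hk⟩ : ∃ k, k = Nat.log 2 N := ⟨_, rfl⟩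
  have hkK : K + k0 + K2 ≤ k := by
    rw [hk]
    exact Nat.le_log_of_pow_le (by norm_num) hN
  have hk1 : 2 ^ k ≤ N := by rw [hk]; exact Nat.pow_log_le_self 2 hN0
  have hk2 : N < 2 ^ (k + 1) := by rw [hk]; exact Nat.lt_pow_succ_log_self (by norm_num) N
  have hX0 : 0 < X k := by rw [hX]; positivity
  have hX1 : 1 ≤ X k := by
    rw [hX]
    exact_mod_cast Nat.one_le_two_pow
  have hXN : X k ≤ N := by rw [hX]; exact_mod_cast hk1
  have hNX : (N : ℝ) ≤ 2 * X k := by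
    rw [hX]
    have h1 : N ≤ 2 * 2 ^ k := by
      have : 2 ^ (k + 1) = 2 * 2 ^ k := by ring
      omega
    exact_mod_cast h1
  obtain ⟨c1, c2, c3⟩ := hK2 k (by omega)
  have hgood := hK (k - k0) (by omega)
  have hkk : k - k0 + k0 = k := by omega
  rw [hkk, hB] at hgood
  have hge : X k ^ (1 - ε / 2) ≤ (sievedCard (2 ^ k) (fun p => a p + ⌊θ * p⌋)
      (X k ^ (0.515 : ℝ)) (2 * X k ^ (0.515 : ℝ)) : ℝ) := by
    by_contra hcon
    exact hgood ⟨hθ01, not_le.1 hcon⟩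
  have hlo : (N : ℝ) ^ (0.51 : ℝ) ≤ X k ^ (0.515 : ℝ) := by
    have h1 : (N : ℝ) ^ (0.51 : ℝ) ≤ (2 * X k) ^ (0.51 : ℝ) :=
      Real.rpow_le_rpow (by positivity) hNX (by norm_num)
    have h2 : (2 * X k) ^ (0.51 : ℝ) = (2 : ℝ) ^ (0.51 : ℝ) * X k ^ (0.51 : ℝ) :=
      Real.mul_rpow (by norm_num) hX0.le
    have h3 : (2 : ℝ) ^ (0.51 : ℝ) ≤ 2 := by
      calc (2 : ℝ) ^ (0.51 : ℝ) ≤ (2 : ℝ) ^ (1 : ℝ) :=
            Real.rpow_le_rpow_of_exponent_le (by norm_num) (by norm_num)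
        _ = 2 := Real.rpow_one 2
    rw [Real.rpow_zero, mul_one] at c1
    have h4 : X k ^ (0.515 : ℝ) = X k ^ (0.005 : ℝ) * X k ^ (0.51 : ℝ) := by
      rw [← Real.rpow_add hX0]
      norm_num
    rw [h4]
    refine h1.trans ?_
    rw [h2]
    exact mul_le_mul_of_nonneg_right (by linarith) (by positivity)
  have hhi : 2 * X k ^ (0.515 : ℝ) ≤ (N : ℝ) ^ (0.52 : ℝ) :=
    c2.le.trans (Real.rpow_le_rpow hX0.le hXN (by norm_num))
  have hpow : (N : ℝ) ^ (1 - ε) ≤ X k ^ (1 - ε / 2) := by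
    have h1 : (N : ℝ) ^ (1 - ε) ≤ (2 * X k) ^ (1 - ε) :=
      Real.rpow_le_rpow (by positivity) hNX (by linarith)
    have h2 : (2 * X k) ^ (1 - ε) = (2 : ℝ) ^ (1 - ε) * X k ^ (1 - ε) :=
      Real.mul_rpow (by norm_num) hX0.le
    have h3 : (2 : ℝ) ^ (1 - ε) ≤ 2 := by
      calc (2 : ℝ) ^ (1 - ε) ≤ (2 : ℝ) ^ (1 : ℝ) :=
            Real.rpow_le_rpow_of_exponent_le (by norm_num) (by linarith)
        _ = 2 := Real.rpow_one 2
    refine h1.trans ?_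
    rw [h2]
    refine le_trans ?_ c3.le
    exact mul_le_mul_of_nonneg_right h3 (by positivity)
  refine hpow.trans (hge.trans ?_)
  exact_mod_cast sieved_mono N (2 ^ k) _ _ _ _ _ hk1 hlo hhi

/-- for every choice `a` and almost every `θ` in `[0, 1)` the choice `a(p) + ⌊θp⌋` satisfies the
bound of the problem -/
theorem ae_all (a : ℕ → ℤ) :
    ∀ᵐ θ : ℝ, θ ∈ Set.Ico (0 : ℝ) 1 → ∀ ε : ℝ, 0 < ε → ∀ᶠ N : ℕ in atTop, (N : ℝ) ^ (1 - ε) ≤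
      (sievedCard N (fun p => a p + ⌊θ * p⌋) ((N : ℝ) ^ (0.51 : ℝ)) ((N : ℝ) ^ (0.52 : ℝ)) : ℝ) := by
  have h1 : ∀ m : ℕ, ∀ᵐ θ : ℝ, θ ∈ Set.Ico (0 : ℝ) 1 → ∀ᶠ N : ℕ in atTop,
      (N : ℝ) ^ (1 - 1 / ((m : ℝ) + 2)) ≤ (sievedCard N (fun p => a p + ⌊θ * p⌋)
        ((N : ℝ) ^ (0.51 : ℝ)) ((N : ℝ) ^ (0.52 : ℝ)) : ℝ) := by
    intro m
    have hm : (0 : ℝ) ≤ m := Nat.cast_nonneg m
    refine ae_eps a (1 / ((m : ℝ) + 2)) (by positivity) ?_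
    rw [div_lt_one (by positivity)]
    linarith
  rw [← ae_all_iff] at h1
  filter_upwards [h1] with θ hθ hθ01 ε hε
  obtain ⟨m, hm⟩ := exists_nat_one_div_lt hε
  filter_upwards [hθ m hθ01, eventually_ge_atTop 1] with N hN hN1
  refine le_trans ?_ hN
  refine Real.rpow_le_rpow_of_exponent_le (by exact_mod_cast hN1) ?_
  have h2 : 1 / ((m : ℝ) + 2) ≤ 1 / ((m : ℝ) + 1) :=
    one_div_le_one_div_of_le (by positivity) (by linarith)
  linarith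

end Pool.Agent.Hhelper69.Ray
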